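import Pool.Agent.U180.NG.Stm2
import Pool.Agent.U594.NG.EXP
import Pool.Agent.U333.NG.B2

/-! Project NG (helper180), second part, package B2I (helper580): Bernoulli sums over intervals of
rows of a circle; adapted from the packages EXP (helper594) and B2 (helper333). -/

set_option autoImplicit false

open MeasureTheory ProbabilityTheory Filter Topology

namespace Pool.Agent.U580.NG

open Pool.Agent.U180.NG
open Pool.Agent.H469R2.NK (e)

lemma up {C : ℝ} (hC : 0 < C) (hH : ∀ (k N : ℕ) (R a : ℝ), 1 ≤ k → 1 ≤ R → 0 ≤ a →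
    a + N ≤ R + 1 →
    ‖∑ n ∈ Finset.range N, e (k * Real.sqrt (R ^ 2 - (a + n) ^ 2))‖ ≤ C * Real.sqrt (k * R))
    (k : ℕ) (R y : ℝ) (p q : ℤ) (hk : 1 ≤ k) (hR : 1 ≤ R) (hp : 0 ≤ (p : ℝ) + y)
    (hq : (q : ℝ) + y ≤ R) :
    ‖∑ m ∈ Finset.Icc p q, e (k * hl R y m)‖ ≤ C * Real.sqrt (k * R) := by
  rcases lt_or_ge q p with h | h
  · rw [Finset.Icc_eq_empty (by omega), Finset.sum_empty, norm_zero]
    positivity
  · rw [Pool.Agent.U594.NG.sum_up]
    have h1 := hH k (q - p + 1).toNat R (p + y) hk hR hp (by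
      have e1 : (((q - p + 1).toNat : ℕ) : ℝ) = (q : ℝ) - p + 1 := by
        have e2 : (((q - p + 1).toNat : ℕ) : ℤ) = q - p + 1 := Int.toNat_of_nonneg (by omega)
        exact_mod_cast congrArg (Int.cast : ℤ → ℝ) e2
      rw [e1]
      linarith)
    have h3 : ∀ n : ℕ, hl R y (p + n) = Real.sqrt (R ^ 2 - (p + y + n) ^ 2) := by
      intro n
      unfold hl
      push_cast
      congr 2
      ring
    simp only [h3]
    exact h1

lemma down {C : ℝ} (hC : 0 < C) (hH : ∀ (k N : ℕ) (R a : ℝ), 1 ≤ k → 1 ≤ R → 0 ≤ a →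
    a + N ≤ R + 1 →
    ‖∑ n ∈ Finset.range N, e (k * Real.sqrt (R ^ 2 - (a + n) ^ 2))‖ ≤ C * Real.sqrt (k * R))
    (k : ℕ) (R y : ℝ) (p q : ℤ) (hk : 1 ≤ k) (hR : 1 ≤ R) (hp : (p : ℝ) - 1 + y ≤ 0)
    (hq : -R ≤ (q : ℝ) + y) :
    ‖∑ m ∈ Finset.Icc q (p - 1), e (k * hl R y m)‖ ≤ C * Real.sqrt (k * R) := by
  rcases lt_or_ge (p - 1) q with h | h
  · rw [Finset.Icc_eq_empty (by omega), Finset.sum_empty, norm_zero]
    positivity
  · rw [Pool.Agent.U594.NG.sum_down]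
    have h1 := hH k (p - q).toNat R (1 - p - y) hk hR (by linarith) (by
      have e1 : (((p - q).toNat : ℕ) : ℝ) = (p : ℝ) - q := by
        have e2 : (((p - q).toNat : ℕ) : ℤ) = p - q := Int.toNat_of_nonneg (by omega)
        exact_mod_cast congrArg (Int.cast : ℤ → ℝ) e2
      rw [e1]
      linarith)
    have h3 : ∀ n : ℕ, hl R y (p - 1 - n) = Real.sqrt (R ^ 2 - (1 - p - y + n) ^ 2) := by
      intro n
      unfold hl
      push_cast
      congr 1
      ring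
    simp only [h3]
    exact h1

/-- Exponential sums over intervals of rows. -/
theorem expI (h : S_HALF) : ∃ C : ℝ, 0 < C ∧ ∀ (k : ℕ) (R y : ℝ) (m₁ m₂ : ℤ), 1 ≤ k → 1 ≤ R →
    ⌈-R - y⌉ ≤ m₁ → m₂ ≤ ⌊R - y⌋ →
    ‖∑ m ∈ Finset.Icc m₁ m₂, e (k * hl R y m)‖ ≤ C * Real.sqrt (k * R) := by
  obtain ⟨C, hC, hH⟩ := h
  refine ⟨2 * C, by positivity, ?_⟩
  intro k R y m₁ m₂ hk hR hm₁ hm₂
  set p : ℤ := ⌈-y⌉ with hp
  have hp1 : -y ≤ (p : ℝ) := Int.le_ceil _
  have hp2 : (p : ℝ) < -y + 1 := Int.ceil_lt_add_one _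
  have hlo1 : -R - y ≤ (m₁ : ℝ) := Int.ceil_le.1 hm₁
  have hhi1 : (m₂ : ℝ) ≤ R - y := Int.le_floor.1 hm₂
  have hsplit : Finset.Icc m₁ m₂ =
      Finset.Icc m₁ (min (m₂ + 1) p - 1) ∪ Finset.Icc (max m₁ p) m₂ := by
    ext m
    simp only [Finset.mem_union, Finset.mem_Icc]
    omega
  have hdisj : Disjoint (Finset.Icc m₁ (min (m₂ + 1) p - 1)) (Finset.Icc (max m₁ p) m₂) := by
    rw [Finset.disjoint_left]
    intro m h1 h2
    simp only [Finset.mem_Icc] at h1 h2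
    omega
  rw [hsplit, Finset.sum_union hdisj]
  have hmax : (p : ℝ) ≤ ((max m₁ p : ℤ) : ℝ) := by exact_mod_cast le_max_right _ _
  have hmin : ((min (m₂ + 1) p : ℤ) : ℝ) ≤ (p : ℝ) := by exact_mod_cast min_le_right _ _
  have h1 := up hC hH k R y (max m₁ p) m₂ hk hR (by linarith) (by linarith)
  have h2 := down hC hH k R y (min (m₂ + 1) p) m₁ hk hR (by linarith) (by linarith)
  calc _ ≤ C * Real.sqrt (k * R) + C * Real.sqrt (k * R) := (norm_add_le _ _).trans (add_le_add h2 h1)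
    _ = _ := by ring

theorem t_B2I (h : S_HALF) : S_B2I := by
  obtain ⟨C, hC, h⟩ := expI h
  have hsum : Summable (fun n : ℕ => 1 / (n : ℝ) ^ (3 / 2 : ℝ)) :=
    Real.summable_one_div_nat_rpow.mpr (by norm_num)
  set Z : ℝ := ∑' n : ℕ, 1 / (n : ℝ) ^ (3 / 2 : ℝ) with hZ
  have hZ0 : 0 ≤ Z := tsum_nonneg fun n => by positivity
  refine ⟨(C * Z + 1) / Real.pi ^ 2, by positivity, ?_⟩
  intro R y c m₁ m₂ hR hm₁ hm₂
  have hs : HasSum (fun n : ℕ => 1 / (n : ℝ) ^ 2 *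
      ∑ m ∈ Finset.Icc m₁ m₂, Real.cos (2 * Real.pi * n * (hl R y m + c)))
      (Real.pi ^ 2 * ∑ m ∈ Finset.Icc m₁ m₂, b2 (hl R y m + c)) := by
    have := hasSum_sum (s := Finset.Icc m₁ m₂)
      (fun m _ => Pool.Agent.U333.NG.hasSum_b2 (hl R y m + c))
    rw [← Finset.mul_sum] at this
    refine this.congr_fun ?_
    intro n
    rw [Finset.mul_sum]
  have hb : HasSum (fun n : ℕ => C * Real.sqrt R * (1 / (n : ℝ) ^ (3 / 2 : ℝ)))
      (C * Real.sqrt R * Z) := hsum.hasSum.mul_left _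
  have hle : ‖Real.pi ^ 2 * ∑ m ∈ Finset.Icc m₁ m₂, b2 (hl R y m + c)‖ ≤ C * Real.sqrt R * Z := by
    rw [← hs.tsum_eq]
    refine tsum_of_norm_bounded hb ?_
    intro n
    rcases Nat.eq_zero_or_pos n with hn | hn
    · subst hn
      simp
    · have h1 := Pool.Agent.U333.NG.cos_sum_le (Finset.Icc m₁ m₂) (hl R y) n c _
        (h n R y m₁ m₂ hn hR hm₁ hm₂)
      have hn' : (0 : ℝ) < n := by exact_mod_cast hn
      rw [Real.norm_eq_abs, abs_mul, abs_of_nonneg (by positivity)]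
      calc 1 / (n : ℝ) ^ 2 *
            |∑ m ∈ Finset.Icc m₁ m₂, Real.cos (2 * Real.pi * n * (hl R y m + c))|
          ≤ 1 / (n : ℝ) ^ 2 * (C * Real.sqrt (n * R)) := by
            apply mul_le_mul_of_nonneg_left h1; positivity
        _ = C * Real.sqrt R * (1 / (n : ℝ) ^ (3 / 2 : ℝ)) := by
            rw [Real.sqrt_mul hn'.le]
            have : (1 : ℝ) / (n : ℝ) ^ 2 * Real.sqrt n = 1 / (n : ℝ) ^ (3 / 2 : ℝ) := by
              rw [Real.sqrt_eq_rpow, ← Real.rpow_natCast (n : ℝ) 2, one_div ((n : ℝ) ^ ((2 : ℕ) : ℝ)),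
                one_div ((n : ℝ) ^ (3 / 2 : ℝ)),
                ← Real.rpow_neg hn'.le, ← Real.rpow_neg hn'.le, ← Real.rpow_add hn']
              congr 1
              norm_num
            rw [← this]
            ring
  rw [Real.norm_eq_abs, abs_mul, abs_of_nonneg (by positivity : (0 : ℝ) ≤ Real.pi ^ 2)] at hle
  rw [div_mul_eq_mul_div, le_div_iff₀ (by positivity)]
  have : 0 ≤ Real.sqrt R := Real.sqrt_nonneg _
  nlinarith [hle, this]

end Pool.Agent.U580.NG
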